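import Pool.Agent.Q205.CR.Stm

set_option autoImplicit false

/-!
# Project CR, job CR-4: the upper bound
-/

namespace Pool.Agent.Q205.CR.Up

open Pool.Agent.Q205.CR

section basics

variable {F : ℕ → ℕ → ℕ} (hF : Appr F)

include hF

theorem F_lt (l s : ℕ) : F l s < 2 ^ l := by
  induction l with
  | zero => simp [hF.zero]
  | succ l ih =>
    have h := hF.half l s
    rw [pow_succ]
    omega

theorem bdd (l : ℕ) : BddAbove (Set.range (F l)) :=
  ⟨2 ^ l, by rintro _ ⟨s, rfl⟩; exact (F_lt hF l s).le⟩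

theorem F_le_W (l s : ℕ) : F l s ≤ W F l := le_csSup (bdd hF l) ⟨s, rfl⟩

theorem exists_W (l : ℕ) : ∃ s, F l s = W F l :=
  Nat.sSup_mem (s := Set.range (F l)) ⟨_, 0, rfl⟩ (bdd hF l)

theorem be_spec (l : ℕ) : F l (be F l) = W F l :=
  Nat.sInf_mem (s := {s | F l s = W F l}) (exists_W hF l)

theorem eq_iff (l s : ℕ) : F l s = W F l ↔ be F l ≤ s := by
  constructor
  · intro h; exact Nat.sInf_le h
  · intro h
    refine le_antisymm (F_le_W hF l s) ?_
    rw [← be_spec hF l]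
    exact hF.mono l _ _ h

theorem half_W (l : ℕ) : W F (l + 1) / 2 = W F l := by
  obtain ⟨s, hs⟩ := exists_W hF (l + 1)
  obtain ⟨t, ht⟩ := exists_W hF l
  have h1 : F (l + 1) (max s t) = W F (l + 1) :=
    le_antisymm (F_le_W hF _ _) (by rw [← hs]; exact hF.mono _ _ _ (le_max_left _ _))
  have h2 : F l (max s t) = W F l :=
    le_antisymm (F_le_W hF _ _) (by rw [← ht]; exact hF.mono _ _ _ (le_max_right _ _))
  rw [← h1, ← h2]; exact hF.half _ _

theorem be_succ (l : ℕ) : be F l ≤ be F (l + 1) := by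
  rw [← eq_iff hF]
  rw [← hF.half, be_spec hF, half_W hF]

theorem be_mono {l m : ℕ} (h : l ≤ m) : be F l ≤ be F m :=
  monotone_nat_of_le_succ (be_succ hF) h

theorem be_zero : be F 0 = 0 := by
  have h : W F 0 = 0 := by
    rw [← be_spec hF 0]; exact hF.zero _
  have := (eq_iff hF 0 0).1 (by rw [hF.zero, h])
  omega

theorem jump_in {x i : ℕ} (hx : x ∈ AA F) (h : be F (2 * i + 1) ≤ x) : be F (2 * i + 2) ≤ x := by
  obtain ⟨j, h1, h2⟩ := hx
  have h3 : i < j := by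
    by_contra hcon
    have := be_mono hF (show 2 * j + 1 ≤ 2 * i + 1 by omega)
    omega
  have := be_mono hF (show 2 * i + 2 ≤ 2 * j by omega)
  omega

end basics

theorem jump_out {F : ℕ → ℕ → ℕ} {x i : ℕ} (hx : x ∈ (AA F)ᶜ) (h : be F (2 * i) ≤ x) :
    be F (2 * i + 1) ≤ x := by
  by_contra hcon
  exact hx ⟨i, h, by omega⟩

/-! ### prefixes -/

theorem pre_length (X : Set ℕ) (n : ℕ) : (pre X n).length = n := by simp [pre]

theorem pre_getD {X : Set ℕ} {n x : ℕ} (h : x < n) : (pre X n).getD x false = true ↔ x ∈ X := by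
  classical
  rw [pre, List.getD_eq_getElem?_getD, List.getElem?_map, List.getElem?_range h]
  simp

theorem fX_spec {X : Set ℕ} (hX : X.Infinite) (s : ℕ) :
    ∃ x ∈ X, s ≤ x ∧ ∃ n0, ∀ n ≥ n0, fX (pre X n) s = some x := by
  classical
  obtain ⟨y, hy, hsy⟩ := hX.exists_gt s
  have hex : ∃ x, s ≤ x ∧ x ∈ X := ⟨y, hsy.le, hy⟩
  obtain ⟨h1, h2⟩ := Nat.find_spec hex
  refine ⟨Nat.find hex, h2, h1, Nat.find hex + 1, fun n hn => ?_⟩
  rw [fX, pre_length, List.find?_range_eq_some]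
  refine ⟨?_, ?_, ?_⟩
  · simp only [Bool.and_eq_true, decide_eq_true_eq]
    exact ⟨h1, (pre_getD (by omega)).2 h2⟩
  · simp only [List.mem_range]; omega
  · intro j hj
    simp only [Bool.not_eq_true', Bool.and_eq_false_imp, decide_eq_true_eq]
    intro hsj
    have := Nat.find_min hex hj
    by_contra hcon
    rw [Bool.not_eq_false] at hcon
    exact this ⟨hsj, (pre_getD (by omega)).1 hcon⟩

theorem fS_spec {F : ℕ → ℕ → ℕ} (hF : Appr F) (l s : ℕ) :
    ∃ t, s ≤ t ∧ be F l ≤ t ∧ ∃ n0, ∀ L ≥ n0, fS F L l s (W F l) = some t := by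
  classical
  have hex : ∃ t, s ≤ t ∧ W F l ≤ F l t := by
    refine ⟨max s (be F l), le_max_left _ _, ?_⟩
    exact ((eq_iff hF l _).2 (le_max_right _ _)).symm.le
  obtain ⟨h1, h2⟩ := Nat.find_spec hex
  refine ⟨Nat.find hex, h1, ?_, Nat.find hex + 1, fun n hn => ?_⟩
  · exact (eq_iff hF l _).1 (le_antisymm (F_le_W hF _ _) h2)
  rw [fS, List.find?_range_eq_some]
  refine ⟨?_, ?_, ?_⟩
  · simp only [Bool.and_eq_true, decide_eq_true_eq]
    exact ⟨h1, h2⟩
  · simp only [List.mem_range]; omega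
  · intro j hj
    simp only [Bool.not_eq_true', Bool.and_eq_false_imp, decide_eq_true_eq, decide_eq_false_iff_not]
    intro hsj h3
    exact Nat.find_min hex hj ⟨hsj, h3⟩

/-- One step. -/
theorem step {F : ℕ → ℕ → ℕ} (hF : Appr F) {X : Set ℕ} (hX : X.Infinite) {l s : ℕ}
    (hs : be F l ≤ s) (hJ : ∀ x ∈ X, be F (l + 1) ≤ x → be F (l + 2) ≤ x) :
    ∃ s', be F (l + 2) ≤ s' ∧ ∃ n0, ∀ n ≥ n0,
      stp F (pre X n) (some (l, s)) (decide (W F (l + 1) % 2 = 1)) = some (l + 2, s') := by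
  obtain ⟨t, hst, hbt, n1, hn1⟩ := fS_spec hF (l + 1) s
  obtain ⟨x, hx, htx, n2, hn2⟩ := fX_spec hX t
  refine ⟨x, hJ x hx (hbt.trans htx), max n1 n2, fun n hn => ?_⟩
  have hv : 2 * F l s + (decide (W F (l + 1) % 2 = 1)).toNat = W F (l + 1) := by
    rw [(eq_iff hF l s).2 hs, ← half_W hF l]
    by_cases h : W F (l + 1) % 2 = 1
    · simp only [h, decide_true, Bool.toNat_true]; omega
    · simp only [h, decide_false, Bool.toNat_false]; omega
  simp only [stp, Option.bind_some]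
  rw [hv, pre_length, hn1 n (le_trans (le_max_left _ _) hn)]
  simp only [Option.bind_some]
  rw [hn2 n (le_trans (le_max_right _ _) hn)]
  rfl

/-- Several steps. -/
theorem steps {F : ℕ → ℕ → ℕ} (hF : Appr F) {X : Set ℕ} (hX : X.Infinite) (k : ℕ) (e : Bool)
    (hJ : ∀ i, ∀ x ∈ X, be F (k + 2 * i + 1) ≤ x → be F (k + 2 * i + 2) ≤ x)
    (h0 : ∃ s, be F k ≤ s ∧ ∃ n0, ∀ n ≥ n0, ini (pre X n) e = some (k, s)) (r : ℕ) :
    ∃ b : List Bool, b.length = r ∧ ∃ s, be F (k + 2 * r) ≤ s ∧ ∃ n0, ∀ n ≥ n0,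
      b.foldl (stp F (pre X n)) (ini (pre X n) e) = some (k + 2 * r, s) := by
  induction r with
  | zero =>
    obtain ⟨s, hs, n0, hn0⟩ := h0
    exact ⟨[], rfl, s, by simpa using hs, n0, fun n hn => by simpa using hn0 n hn⟩
  | succ r ih =>
    obtain ⟨b, hb, s, hs, n1, hn1⟩ := ih
    obtain ⟨s', hs', n2, hn2⟩ := step hF hX hs (hJ r)
    refine ⟨b ++ [decide (W F (k + 2 * r + 1) % 2 = 1)], by simp [hb], s', ?_, max n1 n2,
      fun n hn => ?_⟩
    · rw [show k + 2 * (r + 1) = k + 2 * r + 2 by ring]; exact hs'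
    · rw [List.foldl_append, hn1 n (le_trans (le_max_left _ _) hn)]
      simp only [List.foldl_cons, List.foldl_nil]
      rw [hn2 n (le_trans (le_max_right _ _) hn)]
      rw [show k + 2 * (r + 1) = k + 2 * r + 2 by ring]

theorem proof : S_UP := by
  intro F hF X hX r
  obtain ⟨hinf, hA | hA⟩ := hX
  · obtain ⟨b, hb, s, hs, n0, hn0⟩ := steps hF hinf 0 false
      (fun i x hx h => by
        simp only [zero_add] at h ⊢
        exact jump_in hF (hA hx) h)
      ⟨0, by rw [be_zero hF], 0, fun n _ => rfl⟩ r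
    refine ⟨false :: b, by simp [hb], n0, ?_⟩
    rw [MA, hn0 n0 le_rfl]
    simp only [Option.map_some, hb]
    rw [zero_add] at hs
    rw [(eq_iff hF _ _).2 hs]
  · obtain ⟨x, hx, _, n1, hn1⟩ := fX_spec hinf 0
    obtain ⟨b, hb, s, hs, n0, hn0⟩ := steps hF hinf 1 true
      (fun i x hx h => by
        rw [show 1 + 2 * i + 2 = 2 * (i + 1) + 1 by ring]
        rw [show 1 + 2 * i + 1 = 2 * (i + 1) by ring] at h
        exact jump_out (hA hx) h)
      ⟨x, jump_out (i := 0) (hA hx) (by simp [be_zero hF]), n1, fun n hn => by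
        rw [ini, if_pos rfl, hn1 n hn]; rfl⟩ r
    refine ⟨true :: b, by simp [hb], n0, ?_⟩
    rw [MA, hn0 n0 le_rfl]
    simp only [Option.map_some, hb]
    have hs2 : be F (2 * r) ≤ s := (be_mono hF (by omega)).trans hs
    rw [(eq_iff hF _ _).2 hs2]

end Pool.Agent.Q205.CR.Up
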