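import Pool.Agent.Q205.CR.Mc
import Pool.Agent.Q205.CR.Up

set_option autoImplicit false

/-!
# Project CR, job CR-5: a halting probability
-/

namespace Pool.Agent.Q205.CR.Ap

open Pool.Agent.Q205.CR Pool.Agent.H166R3.AT Pool.Agent.Q205.CR.Tl Encodable
open Nat.Partrec (Code)

/-! ### Weights -/

/-- exponent of the weight of a string -/
def ex (p : List Bool) : ℕ := p.length + p.length / 2 + 2

theorem sum_w (M : ℕ) : ∑ k ∈ Finset.range (2 * M), (2 : ℚ) ^ k * (1 / 2) ^ (k + k / 2 + 2) =
    1 - (1 / 2) ^ M := by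
  induction M with
  | zero => simp
  | succ M ih =>
    rw [show 2 * (M + 1) = 2 * M + 1 + 1 by ring, Finset.sum_range_succ, Finset.sum_range_succ, ih,
      show 2 * M / 2 = M by omega, show (2 * M + 1) / 2 = M by omega]
    have h2 : ∀ n, (2 : ℚ) ^ n * (1 / 2) ^ n = 1 := fun n => by
      rw [← mul_pow]; norm_num
    have e1 : (2 : ℚ) ^ (2 * M) * (1 / 2) ^ (2 * M + M + 2) = (1 / 2) ^ M * (1 / 4) := by
      rw [add_assoc, pow_add, ← mul_assoc, h2, pow_add]; norm_num
    have e2 : (2 : ℚ) ^ (2 * M + 1) * (1 / 2) ^ (2 * M + 1 + M + 2) = (1 / 2) ^ M * (1 / 4) := by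
      rw [add_assoc _ M 2, pow_add (1 / 2 : ℚ), ← mul_assoc, h2, pow_add]; norm_num
    rw [e1, e2, pow_succ]
    ring

/-- the strings of length `k` -/
def Ln (k : ℕ) : Finset (List Bool) := (Finset.univ : Finset (Fin k → Bool)).image List.ofFn

theorem mem_Ln {k : ℕ} {p : List Bool} : p ∈ Ln k ↔ p.length = k := by
  rw [Ln, Finset.mem_image]
  constructor
  · rintro ⟨f, _, rfl⟩; simp
  · rintro rfl
    exact ⟨p.get, Finset.mem_univ _, List.ofFn_get p⟩

theorem card_Ln (k : ℕ) : (Ln k).card ≤ 2 ^ k := by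
  refine Finset.card_image_le.trans ?_
  simp

theorem sum_lt (P : Finset (List Bool)) : ∑ p ∈ P, (1 / 2 : ℚ) ^ ex p < 1 := by
  obtain ⟨M, hM⟩ : ∃ M, ∀ p ∈ P, p.length < 2 * M :=
    ⟨P.sup List.length + 1, fun p hp => by
      have := Finset.le_sup (f := List.length) hp
      omega⟩
  have h1 : P ⊆ (Finset.range (2 * M)).biUnion Ln := by
    intro p hp
    rw [Finset.mem_biUnion]
    exact ⟨p.length, Finset.mem_range.2 (hM p hp), mem_Ln.2 rfl⟩
  have h2 : ∑ p ∈ P, (1 / 2 : ℚ) ^ ex p ≤ ∑ p ∈ (Finset.range (2 * M)).biUnion Ln,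
      (1 / 2 : ℚ) ^ ex p :=
    Finset.sum_le_sum_of_subset_of_nonneg h1 fun _ _ _ => by positivity
  have h3 : ∑ p ∈ (Finset.range (2 * M)).biUnion Ln, (1 / 2 : ℚ) ^ ex p ≤
      ∑ k ∈ Finset.range (2 * M), ∑ p ∈ Ln k, (1 / 2 : ℚ) ^ ex p := by
    refine le_of_eq (Finset.sum_biUnion ?_)
    intro i _ j _ hij
    rw [Function.onFun, Finset.disjoint_left]
    intro p hp hq
    rw [mem_Ln] at hp hq
    exact hij (hp.symm.trans hq)
  have h4 : ∑ k ∈ Finset.range (2 * M), ∑ p ∈ Ln k, (1 / 2 : ℚ) ^ ex p ≤
      ∑ k ∈ Finset.range (2 * M), (2 : ℚ) ^ k * (1 / 2) ^ (k + k / 2 + 2) := by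
    refine Finset.sum_le_sum fun k _ => ?_
    have : ∑ p ∈ Ln k, (1 / 2 : ℚ) ^ ex p = ∑ p ∈ Ln k, (1 / 2 : ℚ) ^ (k + k / 2 + 2) := by
      refine Finset.sum_congr rfl fun p hp => ?_
      rw [ex, mem_Ln.1 hp]
    rw [this, Finset.sum_const, nsmul_eq_mul]
    gcongr
    exact_mod_cast card_Ln k
  rw [sum_w] at h4
  have h5 : (0 : ℚ) < (1 / 2) ^ M := by positivity
  linarith

/-! ### The approximation -/

section constr

variable (c : Code)

/-- the value of the program `p` if it is found in `s` steps -/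
def G (s : ℕ) (p : List Bool) : Option (List Bool) :=
  (Code.evaln s c (encode p)).bind fun v => (decode v : Option (List Bool))

/-- the program with number `j` exists and is seen to halt -/
def ind (s j : ℕ) : Bool :=
  ((decode j : Option (List Bool)).map
    (fun p => decide (encode p = j) && (G c s p).isSome)).getD false

/-- the exponent of the weight of the program with number `j` -/
def wt (j : ℕ) : ℕ := ((decode j : Option (List Bool)).map ex).getD 0

/-- common exponent -/
def D (s : ℕ) : ℕ := ∑ j ∈ Finset.range s, wt j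

/-- numerator -/
def N (s : ℕ) : ℕ := ∑ j ∈ Finset.range s, (ind c s j).toNat * 2 ^ (D s - wt j)

/-- the approximation of the first `l` bits -/
def F (l s : ℕ) : ℕ := 2 ^ l * N c s / 2 ^ D s

theorem c_G : Computable₂ (G c) := by
  have h : Computable (fun a : ℕ × List Bool => G c a.1 a.2) := by
    unfold G
    refine Computable.option_bind ?_ (Computable.decode.comp Computable.snd)
    exact Code.primrec_evaln.to_comp.comp (Computable.pair (Computable.pair Computable.fst
      (Computable.const c)) (Computable.encode.comp Computable.snd))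
  exact h

theorem c_ind : Computable₂ (ind c) := by
  have h : Computable (fun a : ℕ × ℕ => ind c a.1 a.2) := by
    unfold ind
    refine Computable.option_getD ?_ (Computable.const false)
    refine Computable.option_map (Computable.decode.comp Computable.snd) ?_
    refine c_and (c_eq (Computable.encode.comp Computable.snd)
      (Computable.snd.comp Computable.fst)) ?_
    exact Primrec.option_isSome.to_comp.comp ((c_G c).comp (Computable.fst.comp Computable.fst)
      Computable.snd)
  exact h

theorem c_ex : Computable ex := by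
  unfold ex
  refine c_add (c_add Computable.list_length (c_div Computable.list_length (Computable.const 2)))
    (Computable.const 2)

theorem c_wt : Computable wt := by
  unfold wt
  refine Computable.option_getD ?_ (Computable.const 0)
  exact Computable.option_map Computable.decode (c_ex.comp Computable.snd)

theorem c_D : Computable D := by
  unfold D
  exact c_sum Computable.id (c_wt.comp Computable.snd)

theorem c_N : Computable (N c) := by
  unfold N
  refine c_sum Computable.id ?_
  refine c_mul (c_ofb ((c_ind c).comp Computable.fst Computable.snd)) ?_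
  exact c_pow (Computable.const 2) (c_sub (c_D.comp Computable.fst) (c_wt.comp Computable.snd))

theorem c_F : Computable₂ (F c) := by
  have h : Computable (fun a : ℕ × ℕ => F c a.1 a.2) := by
    unfold F
    refine c_div (c_mul (c_pow (Computable.const 2) Computable.fst)
      ((c_N c).comp Computable.snd)) ?_
    exact c_pow (Computable.const 2) (c_D.comp Computable.snd)
  exact h

/-- summand -/
def f (s j : ℕ) : ℚ := if ind c s j = true then (1 / 2) ^ wt j else 0

/-- the approximation as a rational number -/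
def a (s : ℕ) : ℚ := ∑ j ∈ Finset.range s, f c s j

theorem wt_le {j s : ℕ} (h : j < s) : wt j ≤ D s :=
  Finset.single_le_sum (f := wt) (fun _ _ => Nat.zero_le _) (Finset.mem_range.2 h)

theorem a_eq (s : ℕ) : a c s = (N c s : ℚ) / ((2 ^ D s : ℕ) : ℚ) := by
  rw [a, N, Nat.cast_sum, Finset.sum_div]
  refine Finset.sum_congr rfl fun j hj => ?_
  rw [Finset.mem_range] at hj
  rw [f]
  by_cases h : ind c s j = true
  · rw [if_pos h, h]
    have h1 := wt_le hj
    simp only [Bool.toNat_true, one_mul]
    push_cast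
    rw [eq_div_iff (by positivity)]
    conv_lhs => rw [show D s = wt j + (D s - wt j) by omega]
    rw [pow_add, ← mul_assoc, ← mul_pow]
    norm_num
  · rw [if_neg h]
    rw [Bool.not_eq_true] at h
    rw [h]
    simp

theorem F_eq (l s : ℕ) : F c l s = ⌊(2 : ℚ) ^ l * a c s⌋₊ := by
  rw [a_eq, ← mul_div_assoc, show ((2 : ℚ) ^ l * (N c s : ℚ)) = ((2 ^ l * N c s : ℕ) : ℚ) by push_cast; rfl,
    Nat.floor_div_eq_div, F]

theorem G_bound {s : ℕ} {p σ : List Bool} (h : G c s p = some σ) : encode p < s := by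
  unfold G at h
  rw [Option.bind_eq_some_iff] at h
  obtain ⟨v, hv, _⟩ := h
  exact Code.evaln_bound hv

theorem G_mono {s t : ℕ} (hst : s ≤ t) {p σ : List Bool} (h : G c s p = some σ) :
    G c t p = some σ := by
  unfold G at h ⊢
  rw [Option.bind_eq_some_iff] at h ⊢
  obtain ⟨v, hv, h⟩ := h
  exact ⟨v, Code.evaln_mono hst hv, h⟩

theorem ind_iff {s j : ℕ} : ind c s j = true ↔ ∃ p : List Bool, encode p = j ∧
    ∃ σ, G c s p = some σ := by
  unfold ind
  constructor
  · intro h
    cases hd : (decode j : Option (List Bool)) with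
    | none => rw [hd] at h; simp at h
    | some p =>
      rw [hd] at h
      simp only [Option.map_some, Option.getD_some, Bool.and_eq_true, decide_eq_true_eq] at h
      exact ⟨p, h.1, Option.isSome_iff_exists.1 h.2⟩
  · rintro ⟨p, rfl, σ, hσ⟩
    rw [encodek]
    simp [hσ]

theorem ind_bound {s j : ℕ} (h : ind c s j = true) : j < s := by
  rw [ind_iff] at h
  obtain ⟨p, rfl, σ, hσ⟩ := h
  exact G_bound c hσ

theorem ind_mono {s t j : ℕ} (hst : s ≤ t) (h : ind c s j = true) : ind c t j = true := by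
  rw [ind_iff] at h ⊢
  obtain ⟨p, hp, σ, hσ⟩ := h
  exact ⟨p, hp, σ, G_mono c hst hσ⟩

theorem a_ext {s t : ℕ} (hst : s ≤ t) : a c s = ∑ j ∈ Finset.range t, f c s j := by
  rw [a]
  refine Finset.sum_subset (Finset.range_subset_range.2 hst) fun j _ hj => ?_
  rw [f, if_neg]
  intro h
  exact hj (Finset.mem_range.2 (ind_bound c h))

theorem f_nonneg (s j : ℕ) : 0 ≤ f c s j := by
  rw [f]; split_ifs <;> positivity

theorem f_mono {s t : ℕ} (hst : s ≤ t) (j : ℕ) : f c s j ≤ f c t j := by
  by_cases h : ind c s j = true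
  · rw [f, f, if_pos h, if_pos (ind_mono c hst h)]
  · rw [f, if_neg h]; exact f_nonneg c t j

theorem a_mono {s t : ℕ} (hst : s ≤ t) : a c s ≤ a c t := by
  rw [a_ext c hst, a]
  exact Finset.sum_le_sum fun j _ => f_mono c hst j

theorem a_nonneg (s : ℕ) : 0 ≤ a c s := Finset.sum_nonneg fun j _ => f_nonneg c s j

theorem a_jump {s t : ℕ} (hst : s ≤ t) {p σ : List Bool} (h1 : G c s p = none)
    (h2 : G c t p = some σ) : a c s + (1 / 2) ^ ex p ≤ a c t := by
  rw [a_ext c hst, a]
  have hj : encode p ∈ Finset.range t := Finset.mem_range.2 (G_bound c h2)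
  have h3 : f c s (encode p) = 0 := by
    rw [f, if_neg]
    rw [ind_iff]
    rintro ⟨q, hq, τ, hτ⟩
    rw [encode_inj.1 hq, h1] at hτ
    exact absurd hτ (by simp)
  have h4 : f c t (encode p) = (1 / 2) ^ ex p := by
    rw [f, if_pos ((ind_iff c).2 ⟨p, rfl, σ, h2⟩), wt, encodek]
    rfl
  rw [← Finset.add_sum_erase _ _ hj, ← Finset.add_sum_erase _ (f c t) hj, h3, h4]
  have h5 : ∑ x ∈ (Finset.range t).erase (encode p), f c s x ≤
      ∑ x ∈ (Finset.range t).erase (encode p), f c t x :=
    Finset.sum_le_sum fun j _ => f_mono c hst j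
  linarith

theorem a_lt (s : ℕ) : a c s < 1 := by
  classical
  -- the programs seen to halt
  have h : a c s ≤ ∑ p ∈ ((Finset.range s).filter (fun j => ind c s j = true)).image
      (fun j => ((decode j : Option (List Bool)).getD [])), (1 / 2 : ℚ) ^ ex p := by
    rw [Finset.sum_image]
    · rw [a, Finset.sum_filter]
      refine le_of_eq (Finset.sum_congr rfl fun j _ => ?_)
      rw [f]
      by_cases h : ind c s j = true
      · rw [if_pos h, if_pos h]
        obtain ⟨p, rfl, _⟩ := (ind_iff c).1 h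
        rw [wt, encodek]
        rfl
      · rw [if_neg h, if_neg h]
    · intro i hi j hj hij
      rw [Finset.mem_coe, Finset.mem_filter] at hi hj
      obtain ⟨p, rfl, _⟩ := (ind_iff c).1 hi.2
      obtain ⟨q, rfl, _⟩ := (ind_iff c).1 hj.2
      simp only [encodek, Option.getD_some] at hij
      rw [hij]
  exact h.trans_lt (sum_lt _)

theorem appr : Appr (F c) where
  comp := c_F c
  mono := by
    intro l s t hst
    rw [F_eq, F_eq]
    refine Nat.floor_mono ?_
    have := a_mono c hst
    gcongr
  zero := by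
    intro s
    rw [F_eq, Nat.floor_eq_zero]
    simpa using a_lt c s
  half := by
    intro l s
    rw [F, F, Nat.div_div_eq_div_mul, pow_succ, mul_comm (2 ^ D s) 2, mul_comm (2 ^ l) 2, mul_assoc]
    rw [Nat.mul_div_mul_left _ _ (by norm_num)]

end constr

theorem proof : S_AP := by
  intro V hV
  have hp : Partrec (fun p : List Bool => V (p, 0)) :=
    hV.comp (Computable.pair Computable.id (Computable.const 0))
  obtain ⟨c, hc⟩ := Code.exists_code.1 hp
  have lim : ∀ p σ, σ ∈ V (p, 0) ↔ ∃ s, G c s p = some σ := by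
    intro p σ
    constructor
    · intro h
      have h1 : encode σ ∈ c.eval (encode p) := by
        rw [hc]
        simp only [encodek, Part.coe_some, Part.bind_some]
        exact (Part.mem_map_iff _).2 ⟨σ, h, rfl⟩
      obtain ⟨k, hk⟩ := Code.evaln_complete.1 h1
      refine ⟨k, ?_⟩
      unfold G
      rw [Option.mem_def.1 hk, Option.bind_some, encodek]
    · rintro ⟨s, hs⟩
      unfold G at hs
      rw [Option.bind_eq_some_iff] at hs
      obtain ⟨v, hv, hs⟩ := hs
      have h1 : v ∈ c.eval (encode p) := Code.evaln_sound hv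
      rw [hc] at h1
      simp only [encodek, Part.coe_some, Part.bind_some] at h1
      obtain ⟨τ, hτ, rfl⟩ := (Part.mem_map_iff _).1 h1
      rw [encodek] at hs
      rw [← Option.some.inj hs]
      exact hτ
  refine ⟨F c, G c, appr c, c_G c, fun s t p σ hst h => G_mono c hst h, lim, ?_⟩
  intro l s p hl hpl hdom
  by_contra hcon
  have h0 : G c s p = none := by
    cases hg : G c s p with
    | none => rfl
    | some σ => exact absurd ⟨σ, hg⟩ hcon
  obtain ⟨t, ht⟩ := (lim p _).1 (Part.get_mem hdom)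
  have h1 := G_mono c (le_max_right s t) ht
  have h2 := a_jump c (le_max_left s t) h0 h1
  have h3 : F c l (max s t) ≤ W (F c) l := Up.F_le_W (appr c) l _
  have h4 : F c l s + 1 ≤ F c l (max s t) := by
    rw [F_eq, F_eq]
    refine Nat.le_floor ?_
    push_cast
    have h5 : (⌊(2 : ℚ) ^ l * a c s⌋₊ : ℚ) ≤ 2 ^ l * a c s :=
      Nat.floor_le (mul_nonneg (by positivity) (a_nonneg c s))
    have h6 : (1 : ℚ) ≤ 2 ^ l * (1 / 2) ^ ex p := by
      have h7 : (1 / 2 : ℚ) ^ l ≤ (1 / 2) ^ ex p :=
        pow_le_pow_of_le_one (by norm_num) (by norm_num) hpl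
      calc (1 : ℚ) = 2 ^ l * (1 / 2) ^ l := by rw [← mul_pow]; norm_num
        _ ≤ _ := by gcongr
    calc (⌊(2 : ℚ) ^ l * a c s⌋₊ : ℚ) + 1 ≤ 2 ^ l * a c s + 2 ^ l * (1 / 2) ^ ex p := by linarith
      _ = 2 ^ l * (a c s + (1 / 2) ^ ex p) := by ring
      _ ≤ _ := by gcongr
  omega

end Pool.Agent.Q205.CR.Ap
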