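import Pool.Agent.Q205.CR.Stm

set_option autoImplicit false

/-!
# Project CR: assembly
-/

namespace Pool.Agent.Q205.CR

theorem CX_le {U : OMachine} {X : Set ℕ} {p σ : List Bool} (h : U.Out X p σ) :
    CX U X σ ≤ p.length := iInf₂_le p h

theorem CC_le {V : List Bool × ℕ →. List Bool} {p σ : List Bool} {n : ℕ} (h : σ ∈ V (p, n)) :
    CC V σ n ≤ p.length := iInf₂_le p h

/-- The identity machine. -/
theorem CC_fin {V : List Bool × ℕ →. List Bool} (hV : COptimal V) :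
    ∃ d : ℕ, ∀ σ n, CC V σ n ≤ σ.length + d := by
  obtain ⟨c, hc⟩ := hV.2 (fun q => Part.some q.1) (Computable.fst.partrec)
  refine ⟨c, fun σ n => (hc σ n).trans ?_⟩
  gcongr
  exact CC_le (Part.mem_some _)

/-- Fixing the condition. -/
theorem CC_fix {V W : List Bool × ℕ →. List Bool} (hV : COptimal V) (hW : Partrec W) (N : ℕ) :
    ∃ d : ℕ, ∀ σ, CC V σ 0 ≤ CC W σ N + d := by
  have h : Partrec (fun q : List Bool × ℕ => W (q.1, N)) :=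
    hW.comp (Computable.fst.pair (Computable.const N))
  obtain ⟨c, hc⟩ := hV.2 _ h
  exact ⟨c, fun σ => hc σ 0⟩

theorem main (hOO : S_OO) (hCO : S_CO) (hMC : S_MC) (hUP : S_UP) (hAP : S_AP) (hLB : S_LB) :
    (∃ U : OMachine, OOptimal U) ∧ (∃ V : List Bool × ℕ →. List Bool, COptimal V) ∧
    ∃ A : Set ℕ, ∀ (U : OMachine) (V : List Bool × ℕ →. List Bool), OOptimal U → COptimal V →
      ∀ N c : ℕ, ∃ σ : List Bool,
        (⨆ X ∈ RT12 A, CX U X σ) + c < ⨆ n ≥ N, CC V σ n ∧ ⨆ n ≥ N, CC V σ n < ⊤ := by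
  refine ⟨hOO, hCO, ?_⟩
  obtain ⟨V0, hV0⟩ := hCO
  obtain ⟨F, G, hG⟩ := hAP V0 hV0.1
  obtain ⟨c0, hc0⟩ := hLB V0 hV0 F G hG
  refine ⟨AA F, ?_⟩
  intro U V hU hV N c
  obtain ⟨h1, h2⟩ := hMC F hG.appr
  obtain ⟨c1, hc1⟩ := hU ⟨MA F, h1, h2⟩
  obtain ⟨c2, hc2⟩ := CC_fix hV0 hV.1 N
  obtain ⟨c3, hc3⟩ := CC_fin hV
  -- choose `r` large
  obtain ⟨r, hr⟩ : ∃ r : ℕ, 3 * (r + 1 + c1 + c + c2) + c0 < 2 * (2 * r) := by
    refine ⟨3 * (1 + c1 + c + c2) + c0 + 1, by omega⟩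
  refine ⟨sg (2 * r) (W F (2 * r)), ?_, ?_⟩
  · have hup : (⨆ X ∈ RT12 (AA F), CX U X (sg (2 * r) (W F (2 * r)))) ≤ (r + 1 + c1 : ℕ) := by
      refine iSup₂_le fun X hX => ?_
      obtain ⟨p, hp, n, hn⟩ := hUP F hG.appr X hX r
      refine (hc1 X _).trans ?_
      have h3 : CX ⟨MA F, h1, h2⟩ X (sg (2 * r) (W F (2 * r))) ≤ (p.length : ℕ∞) := CX_le ⟨n, hn⟩
      rw [hp] at h3
      calc _ ≤ ((r + 1 : ℕ) : ℕ∞) + c1 := by gcongr
        _ = _ := by push_cast; rfl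
    have hlo : (↑(r + 1 + c1 + c) : ℕ∞) < CC V (sg (2 * r) (W F (2 * r))) N := by
      by_contra hcon
      rw [not_lt] at hcon
      have h4 := hc0 (2 * r)
      have h5 := hc2 (sg (2 * r) (W F (2 * r)))
      have h6 : (2 * ((2 * r : ℕ) : ℕ∞)) ≤ 3 * ((↑(r + 1 + c1 + c) : ℕ∞) + c2) + c0 := by
        refine h4.trans ?_
        gcongr
        exact h5.trans (by gcongr)
      have h7 : ((2 * (2 * r) : ℕ) : ℕ∞) ≤ ((3 * (r + 1 + c1 + c + c2) + c0 : ℕ) : ℕ∞) := by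
        push_cast at h6 ⊢
        refine h6.trans (le_of_eq ?_)
        ring
      rw [Nat.cast_le] at h7
      omega
    calc (⨆ X ∈ RT12 (AA F), CX U X (sg (2 * r) (W F (2 * r)))) + c
        ≤ ((r + 1 + c1 : ℕ) : ℕ∞) + c := by gcongr
      _ = ((r + 1 + c1 + c : ℕ) : ℕ∞) := by push_cast; rfl
      _ < _ := hlo
      _ ≤ _ := le_iSup₂ (f := fun n (_ : n ≥ N) => CC V (sg (2 * r) (W F (2 * r))) n) N le_rfl
  · refine lt_of_le_of_lt (iSup₂_le (a := ((sg (2 * r) (W F (2 * r))).length : ℕ∞) + c3)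
      fun n _ => hc3 _ n) ?_
    exact WithTop.add_lt_top.2 ⟨ENat.coe_lt_top _, ENat.coe_lt_top _⟩

end Pool.Agent.Q205.CR
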