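import Mathlib

set_option autoImplicit false

/-!
# Project CR: complexity relative to all infinite subsets of a set or of its complement
-/

namespace Pool.Agent.Q205.CR

open Classical in
/-- The first `n` bits of the oracle `X`. -/
noncomputable def pre (X : Set ℕ) (n : ℕ) : List Bool :=
  (List.range n).map (fun i => decide (i ∈ X))

/-- An oracle machine, given by a computable function `M`: `M ρ p = some σ` means that the machine
with program `p` has printed `σ` after reading only the initial segment `ρ` of the oracle (and after at
most so many steps).  More oracle bits do not change the output. -/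
structure OMachine where
  /-- the function -/
  M : List Bool → List Bool → Option (List Bool)
  comp : Computable₂ M
  mono : ∀ ρ ρ' p σ, ρ <+: ρ' → M ρ p = some σ → M ρ' p = some σ

/-- With oracle `X` the program `p` prints `σ`. -/
def OMachine.Out (U : OMachine) (X : Set ℕ) (p σ : List Bool) : Prop :=
  ∃ n, U.M (pre X n) p = some σ

/-- The plain complexity of `σ` relative to the oracle `X`, for the oracle machine `U`. -/
noncomputable def CX (U : OMachine) (X : Set ℕ) (σ : List Bool) : ℕ∞ :=
  ⨅ p : List Bool, ⨅ _ : U.Out X p σ, (p.length : ℕ∞)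

/-- Optimal (universal) oracle machines. -/
def OOptimal (U : OMachine) : Prop :=
  ∀ U' : OMachine, ∃ c : ℕ, ∀ X σ, CX U X σ ≤ CX U' X σ + c

/-- The plain conditional complexity of `σ` given the number `n`, for the machine `V`. -/
noncomputable def CC (V : List Bool × ℕ →. List Bool) (σ : List Bool) (n : ℕ) : ℕ∞ :=
  ⨅ p : List Bool, ⨅ _ : σ ∈ V (p, n), (p.length : ℕ∞)

/-- Optimal (universal) machines for conditional complexity. -/
def COptimal (V : List Bool × ℕ →. List Bool) : Prop :=
  Partrec V ∧ ∀ V' : List Bool × ℕ →. List Bool, Partrec V' →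
    ∃ c : ℕ, ∀ σ n, CC V σ n ≤ CC V' σ n + c

/-- The infinite subsets of `A` and of its complement. -/
def RT12 (A : Set ℕ) : Set (Set ℕ) := {X | X.Infinite ∧ (X ⊆ A ∨ X ⊆ Aᶜ)}

/-! ### Approximations from below -/

/-- `F l s` is the approximation at stage `s` of the first `l` bits of a real number which is
approximated from below. -/
structure Appr (F : ℕ → ℕ → ℕ) : Prop where
  comp : Computable₂ F
  mono : ∀ l s t, s ≤ t → F l s ≤ F l t
  zero : ∀ s, F 0 s = 0
  half : ∀ l s, F (l + 1) s / 2 = F l s

/-- The final value. -/
noncomputable def W (F : ℕ → ℕ → ℕ) (l : ℕ) : ℕ := sSup (Set.range (F l))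

open Classical in
/-- The stage at which the final value is reached. -/
noncomputable def be (F : ℕ → ℕ → ℕ) (l : ℕ) : ℕ := sInf {s | F l s = W F l}

/-- The set `A`. -/
def AA (F : ℕ → ℕ → ℕ) : Set ℕ := {n | ∃ i, be F (2 * i) ≤ n ∧ n < be F (2 * i + 1)}

/-- The string `σ` coding `(l, w)`. -/
def sg (l w : ℕ) : List Bool := List.replicate (Nat.pair l w) true

/-! ### The oracle machine -/

/-- The first element `x ≥ s` of the oracle which is seen. -/
def fX (ρ : List Bool) (s : ℕ) : Option ℕ :=
  (List.range ρ.length).find? (fun x => decide (s ≤ x) && ρ.getD x false)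

/-- The first stage `t`, `s ≤ t < L`, at which the approximation is at least `v`. -/
def fS (F : ℕ → ℕ → ℕ) (L l s v : ℕ) : Option ℕ :=
  (List.range L).find? (fun t => decide (s ≤ t) && decide (v ≤ F l t))

/-- One step, using the bit `b` of advice: from a stage `s` at which the first `l` bits are final to a
stage at which the first `l + 2` bits are final. -/
def stp (F : ℕ → ℕ → ℕ) (ρ : List Bool) (st : Option (ℕ × ℕ)) (b : Bool) : Option (ℕ × ℕ) :=
  st.bind fun q => (fS F ρ.length (q.1 + 1) q.2 (2 * F q.1 q.2 + b.toNat)).bind fun t =>
    (fX ρ t).map fun x => (q.1 + 2, x)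

/-- The initial state. -/
def ini (ρ : List Bool) (e : Bool) : Option (ℕ × ℕ) :=
  if e = true then (fX ρ 0).map (fun x => (1, x)) else some (0, 0)

/-- The machine: the first bit of the program says where to begin, the others are the advice. -/
def MA (F : ℕ → ℕ → ℕ) (ρ p : List Bool) : Option (List Bool) :=
  match p with
  | [] => none
  | e :: b => (b.foldl (stp F ρ) (ini ρ e)).map fun q => sg (2 * b.length) (F (2 * b.length) q.2)

end Pool.Agent.Q205.CR
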