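import Pool.Agent.Q205.CR.Mc
import Pool.Agent.Q205.CR.Up

set_option autoImplicit false

/-!
# Project CR, job CR-6: the lower bound
-/

namespace Pool.Agent.Q205.CR.Lb

open Pool.Agent.Q205.CR Pool.Agent.H166R3.AT Pool.Agent.Q205.CR.Tl

theorem CC_attain (V : List Bool × ℕ →. List Bool) (σ : List Bool) (n : ℕ) :
    CC V σ n = ⊤ ∨ ∃ p, σ ∈ V (p, n) ∧ CC V σ n = p.length := by
  classical
  by_cases h : ∃ k, ∃ p : List Bool, p.length = k ∧ σ ∈ V (p, n)
  · right
    obtain ⟨p, hp, hσ⟩ := Nat.find_spec h
    refine ⟨p, hσ, le_antisymm (iInf₂_le p hσ) (le_iInf₂ fun q hq => ?_)⟩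
    rw [hp]
    exact_mod_cast Nat.find_min' h ⟨q, rfl, hq⟩
  · left
    rw [CC, iInf_eq_top]
    intro p
    rw [iInf_eq_top]
    intro hp
    exact absurd ⟨_, p, rfl, hp⟩ h

/-- all strings of length at most `l` -/
def en (l : ℕ) : List (List Bool) :=
  Nat.rec [[]] (fun _ L => L ++ (L.map (List.cons true) ++ L.map (List.cons false))) l

theorem mem_en {p : List Bool} {l : ℕ} (h : p.length ≤ l) : p ∈ en l := by
  induction l generalizing p with
  | zero =>
    have : p = [] := List.eq_nil_of_length_eq_zero (by omega)
    subst this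
    exact List.mem_singleton.2 rfl
  | succ l ih =>
    change p ∈ en l ++ ((en l).map (List.cons true) ++ (en l).map (List.cons false))
    cases p with
    | nil => exact List.mem_append_left _ (ih (Nat.zero_le _))
    | cons b q =>
      refine List.mem_append_right _ ?_
      have hq : q ∈ en l := ih (by simpa using h)
      cases b with
      | true => exact List.mem_append_left _ (List.mem_map_of_mem hq)
      | false => exact List.mem_append_right _ (List.mem_map_of_mem hq)

theorem c_en : Computable en := by
  have hm : ∀ b : Bool, Primrec (fun q : ℕ × (ℕ × List (List Bool)) => q.2.2.map (List.cons b)) :=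
    fun b => Primrec.list_map (Primrec.snd.comp Primrec.snd)
      (Primrec.list_cons.comp (Primrec.const b) Primrec.snd)
  have h : Primrec (fun l : ℕ => (Nat.rec ([[]] : List (List Bool))
      (fun _ L => L ++ (L.map (List.cons true) ++ L.map (List.cons false))) l :
        List (List Bool))) := by
    refine Primrec.nat_rec' (f := id) (g := fun _ => ([[]] : List (List Bool)))
      (h := fun _ q => q.2 ++ (q.2.map (List.cons true) ++ q.2.map (List.cons false)))
      Primrec.id (Primrec.const _) ?_
    refine Primrec.list_append.comp (Primrec.snd.comp Primrec.snd) ?_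
    exact Primrec.list_append.comp (hm true) (hm false)
  exact h.to_comp

/-- The sum of the lengths of the values which have been found. -/
def mx (G : ℕ → List Bool → Option (List Bool)) (s l : ℕ) : ℕ :=
  (en l).foldl (fun acc p => acc + ((G s p).map List.length).getD 0) 0

theorem c_mx {G : ℕ → List Bool → Option (List Bool)} (hG : Computable₂ G) :
    Computable₂ (mx G) := by
  have h : Computable (fun a : ℕ × ℕ => mx G a.1 a.2) := by
    unfold mx
    refine c_foldl (L := fun a : ℕ × ℕ => en a.2) (i := fun _ => 0)
      (g := fun (a : ℕ × ℕ) (z : ℕ × List Bool) => z.1 + ((G a.1 z.2).map List.length).getD 0)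
      (c_en.comp Computable.snd) (Computable.const 0) ?_
    refine c_add (Computable.fst.comp Computable.snd) ?_
    refine Computable.option_getD ?_ (Computable.const 0)
    refine Computable.option_map ?_ (Computable.list_length.comp Computable.snd)
    exact hG.comp (Computable.fst.comp Computable.fst) (Computable.snd.comp Computable.snd)
  exact h

theorem fold_ge {L : List (List Bool)} {w : List Bool → ℕ} (acc : ℕ) :
    acc ≤ L.foldl (fun acc p => acc + w p) acc ∧
      ∀ p ∈ L, w p ≤ L.foldl (fun acc p => acc + w p) acc := by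
  induction L generalizing acc with
  | nil => exact ⟨le_rfl, by simp⟩
  | cons q L ih =>
    simp only [List.foldl_cons]
    obtain ⟨h1, h2⟩ := ih (acc + w q)
    refine ⟨by omega, fun p hp => ?_⟩
    rcases List.mem_cons.1 hp with rfl | hp
    · omega
    · exact h2 p hp

theorem mx_ge {G : ℕ → List Bool → Option (List Bool)} {s l : ℕ} {p τ : List Bool}
    (hp : p.length ≤ l) (h : G s p = some τ) : τ.length ≤ mx G s l := by
  have := (fold_ge (L := en l) (w := fun p => ((G s p).map List.length).getD 0) 0).2 p (mem_en hp)
  simp only [h, Option.map_some, Option.getD_some] at this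
  exact this

/-- The machine. -/
def V' (V : List Bool × ℕ →. List Bool) (F : ℕ → ℕ → ℕ) (G : ℕ → List Bool → Option (List Bool))
    (q : List Bool × ℕ) : Part (List Bool) :=
  (V (q.1, 0)).bind fun σ =>
    (Nat.rfind (fun s => Part.some (decide (σ.length.unpair.2 ≤ F σ.length.unpair.1 s)))).map
      fun s => List.replicate (mx G s σ.length.unpair.1 + 1) true

theorem c_V' {V : List Bool × ℕ →. List Bool} (hV : Partrec V) {F : ℕ → ℕ → ℕ}
    (hF : Computable₂ F) {G : ℕ → List Bool → Option (List Bool)} (hG : Computable₂ G) :
    Partrec (V' V F G) := by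
  unfold V'
  refine Partrec.bind (hV.comp (Computable.pair Computable.fst (Computable.const 0))) ?_
  have hu : Computable (fun b : (List Bool × ℕ) × List Bool => b.2.length.unpair) :=
    Primrec.unpair.to_comp.comp (Computable.list_length.comp Computable.snd)
  refine Partrec.map ?_ ?_
  · refine Partrec.rfind ?_
    have : Computable (fun z : ((List Bool × ℕ) × List Bool) × ℕ =>
        decide (z.1.2.length.unpair.2 ≤ F z.1.2.length.unpair.1 z.2)) :=
      c_le (Computable.snd.comp (hu.comp Computable.fst))
        (hF.comp (Computable.fst.comp (hu.comp Computable.fst)) Computable.snd)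
    exact this.partrec
  · refine c_replicate (Computable.succ.comp ?_)
    exact (c_mx hG).comp Computable.snd (Computable.fst.comp (hu.comp Computable.fst))

theorem proof : S_LB := by
  intro V hV F G hG
  obtain ⟨d, hd⟩ := hV.2 (V' V F G) (c_V' hV.1 hG.appr.comp hG.comp)
  refine ⟨3 * d + 4, fun l => ?_⟩
  rcases CC_attain V (sg l (W F l)) 0 with h | ⟨q, hq, h⟩
  · rw [h]
    have : (3 : ℕ∞) * ⊤ = ⊤ := ENat.mul_top (by norm_num)
    rw [this, top_add]
    exact le_top
  · rw [h]
    -- the stage which is found
    have hex : ∃ s, W F l ≤ F l s := ⟨be F l, (Up.be_spec hG.appr l).symm.le⟩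
    classical
    have hs := Nat.find_spec hex
    have hlen : (sg l (W F l)).length.unpair = (l, W F l) := by
      rw [sg, List.length_replicate, Nat.unpair_pair]
    have hout : List.replicate (mx G (Nat.find hex) l + 1) true ∈ V' V F G (q, 0) := by
      unfold V'
      rw [Part.mem_bind_iff]
      refine ⟨_, hq, ?_⟩
      rw [hlen]
      rw [Part.mem_map_iff]
      refine ⟨Nat.find hex, ?_, rfl⟩
      rw [Nat.mem_rfind]
      refine ⟨?_, fun {m} hm => ?_⟩
      · simpa using hs
      · have := Nat.find_min hex hm
        simpa using this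
    set τ := List.replicate (mx G (Nat.find hex) l + 1) true with hτ
    have h1 : CC V τ 0 ≤ (q.length : ℕ∞) + d :=
      (hd τ 0).trans (by gcongr; exact iInf₂_le q hout)
    rcases CC_attain V τ 0 with h2 | ⟨p, hp, h2⟩
    · rw [h2, top_le_iff] at h1
      exact absurd h1 (by
        have : ((q.length : ℕ∞) + d) = ((q.length + d : ℕ) : ℕ∞) := by push_cast; rfl
        rw [this]; exact ENat.coe_ne_top _)
    · rw [h2] at h1
      have h3 : p.length ≤ q.length + d := by exact_mod_cast h1
      have h4 : l < p.length + p.length / 2 + 2 := by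
        by_contra hcon
        rw [not_lt] at hcon
        have h5 : F l (Nat.find hex) = W F l := le_antisymm (Up.F_le_W hG.appr _ _) hs
        obtain ⟨σ, hσ⟩ := hG.sett l _ p h5 hcon (Part.dom_iff_mem.2 ⟨_, hp⟩)
        have h6 : σ ∈ V (p, 0) := (hG.lim p σ).2 ⟨_, hσ⟩
        have h7 : σ = τ := Part.mem_unique h6 hp
        have h8 := mx_ge (show p.length ≤ l by omega) hσ
        rw [h7, hτ, List.length_replicate] at h8
        omega
      have h9 : 2 * l ≤ 3 * q.length + (3 * d + 4) := by omega
      exact_mod_cast h9

end Pool.Agent.Q205.CR.Lb
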