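import Pool.Agent.Q205.CR.Tl

set_option autoImplicit false

/-!
# Project CR, job CR-3: the machine is computable and monotone
-/

namespace Pool.Agent.Q205.CR.Mc

open Pool.Agent.Q205.CR Pool.Agent.H166R3.AT Pool.Agent.Q205.CR.Tl

variable {α : Type*} [Primcodable α]

theorem c_fX {ρ : α → List Bool} {s : α → ℕ} (hρ : Computable ρ) (hs : Computable s) :
    Computable (fun a => fX (ρ a) (s a)) := by
  unfold fX
  refine c_find? (Computable.list_length.comp hρ) ?_
  exact c_and (c_le (hs.comp Computable.fst) Computable.snd)
    (c_getD (hρ.comp Computable.fst) Computable.snd)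

theorem c_fS {F : ℕ → ℕ → ℕ} (hF : Computable₂ F) {L l s v : α → ℕ} (hL : Computable L)
    (hl : Computable l) (hs : Computable s) (hv : Computable v) :
    Computable (fun a => fS F (L a) (l a) (s a) (v a)) := by
  unfold fS
  refine c_find? hL ?_
  exact c_and (c_le (hs.comp Computable.fst) Computable.snd)
    (c_le (hv.comp Computable.fst) (hF.comp (hl.comp Computable.fst) Computable.snd))

theorem c_stp {F : ℕ → ℕ → ℕ} (hF : Computable₂ F) :
    Computable₂ (fun (ρ : List Bool) (q : Option (ℕ × ℕ) × Bool) => stp F ρ q.1 q.2) := by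
  unfold stp
  refine Computable.option_bind (Computable.fst.comp Computable.snd) ?_
  refine Computable.option_bind ?_ ?_
  · refine c_fS hF ?_ ?_ ?_ ?_
    · exact Computable.list_length.comp (Computable.fst.comp Computable.fst)
    · exact Computable.succ.comp (Computable.fst.comp Computable.snd)
    · exact Computable.snd.comp Computable.snd
    · refine c_add (c_mul (Computable.const 2) ?_) (c_ofb ?_)
      · exact hF.comp (Computable.fst.comp Computable.snd) (Computable.snd.comp Computable.snd)
      · exact Computable.snd.comp (Computable.snd.comp Computable.fst)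
  · refine Computable.option_map ?_ ?_
    · exact c_fX (Computable.fst.comp (Computable.fst.comp Computable.fst)) Computable.snd
    · refine Computable.pair ?_ Computable.snd
      refine Computable.succ.comp (Computable.succ.comp ?_)
      exact Computable.fst.comp (Computable.snd.comp (Computable.fst.comp Computable.fst))

theorem c_ini : Computable₂ ini := by
  have h : Computable (fun a : List Bool × Bool => if a.2 = true then (fX a.1 0).map (fun x => (1, x))
      else some (0, 0)) := by
    refine c_ite Computable.snd ?_ (Computable.const _)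
    refine Computable.option_map (c_fX Computable.fst (Computable.const 0)) ?_
    exact Computable.pair (Computable.const 1) Computable.snd
  exact h

theorem c_MA {F : ℕ → ℕ → ℕ} (hF : Computable₂ F) : Computable₂ (MA F) := by
  have h : Computable (fun a : List Bool × List Bool => (List.casesOn a.2 (none : Option (List Bool))
      (fun e b => (b.foldl (stp F a.1) (ini a.1 e)).map
        fun q => sg (2 * b.length) (F (2 * b.length) q.2)) : Option (List Bool))) := by
    refine c_listCases (g := fun (a : List Bool × List Bool) (z : Bool × List Bool) =>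
      (z.2.foldl (stp F a.1) (ini a.1 z.1)).map
        fun q => sg (2 * z.2.length) (F (2 * z.2.length) q.2)) Computable.snd ?_
    refine Computable.option_map ?_ ?_
    · exact c_foldl (g := fun (a : (List Bool × List Bool) × (Bool × List Bool))
          (q : Option (ℕ × ℕ) × Bool) => stp F a.1.1 q.1 q.2)
        (L := fun a : (List Bool × List Bool) × (Bool × List Bool) => a.2.2)
        (i := fun a : (List Bool × List Bool) × (Bool × List Bool) => ini a.1.1 a.2.1)
        (Computable.snd.comp Computable.snd)
        (c_ini.comp (Computable.fst.comp Computable.fst) (Computable.fst.comp Computable.snd))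
        ((c_stp hF).comp (Computable.fst.comp (Computable.fst.comp Computable.fst)) Computable.snd)
    · have hb : Computable (fun q : ((List Bool × List Bool) × (Bool × List Bool)) × (ℕ × ℕ) =>
          2 * q.1.2.2.length) :=
        c_mul (Computable.const 2) (Computable.list_length.comp
          (Computable.snd.comp (Computable.snd.comp Computable.fst)))
      unfold sg
      refine c_replicate ?_
      exact (Primrec₂.natPair.to_comp).comp hb (hF.comp hb (Computable.snd.comp Computable.snd))
  refine h.of_eq (fun a => ?_)
  obtain ⟨ρ, p⟩ := a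
  cases p <;> rfl

/-! ### monotone -/

theorem fX_mono {ρ ρ' : List Bool} (h : ρ <+: ρ') {s x : ℕ} (hx : fX ρ s = some x) :
    fX ρ' s = some x := by
  have hl := h.length_le
  have hg : ∀ j < ρ.length, ρ'.getD j false = ρ.getD j false := by
    intro j hj
    obtain ⟨t, rfl⟩ := h
    rw [List.getD_eq_getElem?_getD, List.getD_eq_getElem?_getD, List.getElem?_append_left hj]
  rw [fX, List.find?_range_eq_some] at hx ⊢
  obtain ⟨h1, h2, h3⟩ := hx
  rw [List.mem_range] at h2
  refine ⟨?_, ?_, ?_⟩
  · rw [hg x h2]; exact h1
  · rw [List.mem_range]; omega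
  · intro j hj
    rw [hg j (by omega)]; exact h3 j hj

theorem fS_mono {F : ℕ → ℕ → ℕ} {L L' l s v t : ℕ} (h : L ≤ L') (ht : fS F L l s v = some t) :
    fS F L' l s v = some t := by
  rw [fS, List.find?_range_eq_some] at ht ⊢
  obtain ⟨h1, h2, h3⟩ := ht
  rw [List.mem_range] at h2
  exact ⟨h1, by rw [List.mem_range]; omega, h3⟩

theorem stp_mono {F : ℕ → ℕ → ℕ} {ρ ρ' : List Bool} (h : ρ <+: ρ') {st st' : Option (ℕ × ℕ)}
    {b : Bool} {q : ℕ × ℕ} (hst : ∀ z, st = some z → st' = some z) (hq : stp F ρ st b = some q) :
    stp F ρ' st' b = some q := by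
  unfold stp at hq ⊢
  rw [Option.bind_eq_some_iff] at hq
  obtain ⟨z, hz, hq⟩ := hq
  rw [Option.bind_eq_some_iff] at hq
  obtain ⟨t, ht, hq⟩ := hq
  rw [Option.map_eq_some_iff] at hq
  obtain ⟨x, hx, hq⟩ := hq
  rw [hst z hz, Option.bind_some, fS_mono h.length_le ht, Option.bind_some, fX_mono h hx,
    Option.map_some, hq]

theorem fold_mono {F : ℕ → ℕ → ℕ} {ρ ρ' : List Bool} (h : ρ <+: ρ') (b : List Bool) :
    ∀ {st st' : Option (ℕ × ℕ)}, (∀ z, st = some z → st' = some z) →
      ∀ q, b.foldl (stp F ρ) st = some q → b.foldl (stp F ρ') st' = some q := by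
  induction b with
  | nil => intro st st' hst q hq; exact hst q hq
  | cons b bs ih =>
    intro st st' hst q hq
    simp only [List.foldl_cons] at hq ⊢
    exact ih (fun z hz => stp_mono h hst hz) q hq

theorem ini_mono {ρ ρ' : List Bool} (h : ρ <+: ρ') {e : Bool} : ∀ z, ini ρ e = some z →
    ini ρ' e = some z := by
  intro z hz
  cases e with
  | false => simpa [ini] using hz
  | true =>
    simp only [ini, if_true] at hz ⊢
    rw [Option.map_eq_some_iff] at hz
    obtain ⟨x, hx, hz⟩ := hz
    rw [fX_mono h hx, Option.map_some, hz]

theorem proof : S_MC := by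
  intro F hF
  refine ⟨c_MA hF.comp, ?_⟩
  intro ρ ρ' p σ h hp
  cases p with
  | nil => simp [MA] at hp
  | cons e b =>
    unfold MA at hp ⊢
    simp only at hp ⊢
    rw [Option.map_eq_some_iff] at hp
    obtain ⟨q, hq, hσ⟩ := hp
    rw [fold_mono h b (ini_mono h) q hq, Option.map_some, hσ]

end Pool.Agent.Q205.CR.Mc
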