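import Pool.Agent.Q205.CR.Mc

set_option autoImplicit false

/-!
# Project CR, jobs CR-1 and CR-2: optimal machines exist
-/

namespace Pool.Agent.Q205.CR.Oo

open Pool.Agent.Q205.CR Pool.Agent.H166R3.AT Pool.Agent.Q205.CR.Tl Encodable Denumerable
open Nat.Partrec (Code)

variable {α β : Type*} [Primcodable α] [Primcodable β]

theorem c_drop {L : α → List β} {n : α → ℕ} (hL : Computable L) (hn : Computable n) :
    Computable (fun a => (L a).drop (n a)) := by
  have h := Computable.nat_rec (f := n) (g := L) (h := fun _ q => q.2.tail) hn hL
    (Primrec.list_tail.to_comp.comp (Computable.snd.comp Computable.snd))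
  refine h.of_eq (fun a => ?_)
  induction n a with
  | zero => rfl
  | succ m ih =>
    simp only at ih ⊢
    rw [ih, List.tail_drop]

theorem c_take {L : α → List β} {n : α → ℕ} (hL : Computable L) (hn : Computable n) :
    Computable (fun a => (L a).take (n a)) := by
  have h := Computable.nat_rec (f := n) (g := fun _ => ([] : List β))
    (h := fun a q => Option.casesOn ((L a)[q.1]?) q.2 (fun b => q.2 ++ [b])) hn
    (Computable.const []) (by
      refine Computable.option_casesOn ?_ (Computable.snd.comp Computable.snd) ?_
      · exact Computable.list_getElem?.comp (hL.comp Computable.fst)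
          (Computable.fst.comp Computable.snd)
      · refine Computable.list_append.comp (Computable.snd.comp (Computable.snd.comp
          Computable.fst)) ?_
        exact Computable.list_cons.comp Computable.snd (Computable.const []))
  refine h.of_eq (fun a => ?_)
  induction n a with
  | zero => rfl
  | succ m ih =>
    simp only at ih ⊢
    rw [ih, List.take_add_one]
    cases (L a)[m]? <;> simp

/-- Decoding of programs. -/
def dec (q : List Bool) : Option (ℕ × List Bool) :=
  ((List.range q.length).find? (fun i => !(q.getD i false))).map (fun e => (e, q.drop (e + 1)))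

theorem c_dec : Computable dec := by
  unfold dec
  refine Computable.option_map (c_find? Computable.list_length ?_) ?_
  · exact c_not (c_getD Computable.fst Computable.snd)
  · exact Computable.pair Computable.snd (c_drop Computable.fst (Computable.succ.comp Computable.snd))

theorem dec_spec (e : ℕ) (p : List Bool) : dec (List.replicate e true ++ false :: p) = some (e, p) := by
  have h : (List.range (List.replicate e true ++ false :: p).length).find?
      (fun i => !((List.replicate e true ++ false :: p).getD i false)) = some e := by
    rw [List.find?_range_eq_some]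
    refine ⟨?_, ?_, ?_⟩
    · rw [List.getD_eq_getElem?_getD, List.getElem?_append_right (by simp)]
      simp
    · simp
    · intro j hj
      rw [List.getD_eq_getElem?_getD, List.getElem?_append_left (by simpa using hj)]
      simp [hj]
  rw [dec, h, Option.map_some]
  congr 2
  rw [show e + 1 = (List.replicate e true ++ [false]).length by simp,
    show List.replicate e true ++ false :: p = (List.replicate e true ++ [false]) ++ p by simp,
    List.drop_left]

/-- Evaluation with a time bound. -/
def ev (k e : ℕ) (z : List Bool × List Bool) : Option (List Bool) :=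
  (Code.evaln k (ofNat Code e) (encode z)).bind
    fun v => (decode v : Option (Option (List Bool))).bind id

theorem c_ev {k e : α → ℕ} {z : α → List Bool × List Bool} (hk : Computable k) (he : Computable e)
    (hz : Computable z) : Computable (fun a => ev (k a) (e a) (z a)) := by
  unfold ev
  refine Computable.option_bind ?_ ?_
  · have h := Code.primrec_evaln.to_comp
    exact h.comp (Computable.pair (Computable.pair hk ((Computable.ofNat Code).comp he))
      (Computable.encode.comp hz))
  · exact Computable.option_bind (Computable.decode.comp Computable.snd) Computable.snd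

/-- The machine. -/
def UU (ρ q : List Bool) : Option (List Bool) :=
  (dec q).bind fun ep =>
    ((List.range ρ.length).find? (fun m =>
      (ev m.unpair.1 ep.1 (ρ.take m.unpair.2, ep.2)).isSome)).bind fun m =>
        ev m.unpair.1 ep.1 (ρ.take m.unpair.2, ep.2)

theorem c_UU : Computable₂ UU := by
  have h0 : Computable (fun b : ((List Bool × List Bool) × (ℕ × List Bool)) × ℕ =>
      ev b.2.unpair.1 b.1.2.1 (b.1.1.1.take b.2.unpair.2, b.1.2.2)) := by
    have hu : Computable (fun b : ((List Bool × List Bool) × (ℕ × List Bool)) × ℕ =>
      b.2.unpair) := Primrec.unpair.to_comp.comp Computable.snd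
    refine c_ev (Computable.fst.comp hu) ?_ (Computable.pair ?_ ?_)
    · exact Computable.fst.comp (Computable.snd.comp Computable.fst)
    · exact c_take (Computable.fst.comp (Computable.fst.comp Computable.fst))
        (Computable.snd.comp hu)
    · exact Computable.snd.comp (Computable.snd.comp Computable.fst)
  have h : Computable (fun a : List Bool × List Bool => UU a.1 a.2) := by
    unfold UU
    refine Computable.option_bind (c_dec.comp Computable.snd) ?_
    refine Computable.option_bind (f := fun a : (List Bool × List Bool) × (ℕ × List Bool) =>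
      (List.range a.1.1.length).find? (fun m =>
      (ev m.unpair.1 a.2.1 (a.1.1.take m.unpair.2, a.2.2)).isSome))
      (g := fun (a : (List Bool × List Bool) × (ℕ × List Bool)) (m : ℕ) =>
        ev m.unpair.1 a.2.1 (a.1.1.take m.unpair.2, a.2.2)) ?_ h0
    refine c_find? (Computable.list_length.comp (Computable.fst.comp Computable.fst)) ?_
    exact Primrec.option_isSome.to_comp.comp h0
  exact h

theorem UU_mono {ρ ρ' q σ : List Bool} (h : ρ <+: ρ') (hσ : UU ρ q = some σ) :
    UU ρ' q = some σ := by
  unfold UU at hσ ⊢
  rw [Option.bind_eq_some_iff] at hσ ⊢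
  obtain ⟨ep, hep, hσ⟩ := hσ
  refine ⟨ep, hep, ?_⟩
  rw [Option.bind_eq_some_iff] at hσ ⊢
  obtain ⟨m, hm, hσ⟩ := hσ
  have ht : ∀ j ≤ ρ.length, ρ'.take j = ρ.take j := by
    intro j hj
    obtain ⟨t, rfl⟩ := h
    rw [List.take_append_of_le_length hj]
  have hl := h.length_le
  rw [List.find?_range_eq_some] at hm
  obtain ⟨h1, h2, h3⟩ := hm
  rw [List.mem_range] at h2
  have hu : ∀ j ≤ m, j.unpair.2 ≤ ρ.length := fun j hj => (Nat.unpair_right_le j).trans (by omega)
  refine ⟨m, ?_, ?_⟩
  · rw [List.find?_range_eq_some]
    refine ⟨?_, by rw [List.mem_range]; omega, ?_⟩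
    · rw [ht _ (hu m le_rfl)]; exact h1
    · intro j hj
      rw [ht _ (hu j hj.le)]; exact h3 j hj
  · rw [ht _ (hu m le_rfl)]; exact hσ

theorem ev_sound {M : List Bool → List Bool → Option (List Bool)} {c : Code}
    (hc : c.eval = fun n => Part.bind (Part.ofOption (decode n : Option (List Bool × List Bool)))
      fun a => (Part.some (M a.1 a.2)).map encode) (k : ℕ) (z : List Bool × List Bool)
    (σ : List Bool) (h : ev k (encode c) z = some σ) : M z.1 z.2 = some σ := by
  unfold ev at h
  rw [Option.bind_eq_some_iff] at h
  obtain ⟨v, hv, h⟩ := h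
  rw [ofNat_encode] at hv
  have h1 : v ∈ c.eval (encode z) := Code.evaln_sound hv
  rw [hc] at h1
  simp only [encodek, Part.coe_some, Part.bind_some, Part.map_some, Part.mem_some_iff] at h1
  subst h1
  simpa using h

theorem ev_complete {M : List Bool → List Bool → Option (List Bool)} {c : Code}
    (hc : c.eval = fun n => Part.bind (Part.ofOption (decode n : Option (List Bool × List Bool)))
      fun a => (Part.some (M a.1 a.2)).map encode) (z : List Bool × List Bool)
    (σ : List Bool) (h : M z.1 z.2 = some σ) : ∃ k, ev k (encode c) z = some σ := by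
  have h1 : encode (some σ) ∈ c.eval (encode z) := by
    rw [hc]
    simp only [encodek, Part.coe_some, Part.bind_some, Part.map_some, Part.mem_some_iff]
    rw [h]
  obtain ⟨k, hk⟩ := Code.evaln_complete.1 h1
  refine ⟨k, ?_⟩
  unfold ev
  rw [ofNat_encode, Option.mem_def.1 hk, Option.bind_some, encodek]
  rfl

theorem take_pre (X : Set ℕ) {j n : ℕ} (h : j ≤ n) : (pre X n).take j = pre X j := by
  unfold pre
  rw [← List.map_take, List.take_range, min_eq_left h]

theorem pre_prefix (X : Set ℕ) {j n : ℕ} (h : j ≤ n) : pre X j <+: pre X n := by
  rw [← take_pre X h]; exact List.take_prefix _ _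

theorem proof1 : S_OO := by
  refine ⟨⟨UU, c_UU, fun ρ ρ' p σ h hσ => UU_mono h hσ⟩, ?_⟩
  intro U'
  have hp : Partrec (fun a : List Bool × List Bool => (Part.some (U'.M a.1 a.2))) := U'.comp
  obtain ⟨c, hc⟩ := Code.exists_code.1 hp
  refine ⟨encode c + 1, fun X σ => ?_⟩
  rw [← tsub_le_iff_right]
  unfold CX
  refine le_iInf₂ fun p hpo => ?_
  rw [tsub_le_iff_right]
  obtain ⟨j, hj⟩ := hpo
  obtain ⟨k, hk⟩ := ev_complete hc (pre X j, p) σ hj
  refine (iInf₂_le (List.replicate (encode c) true ++ false :: p) ?_).trans ?_
  · refine ⟨Nat.pair k j + 1, ?_⟩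
    simp only [UU, dec_spec, Option.bind_some]
    have hu : (Nat.pair k j).unpair = (k, j) := Nat.unpair_pair k j
    have hfound : (ev (Nat.pair k j).unpair.1 (encode c)
        ((pre X (Nat.pair k j + 1)).take (Nat.pair k j).unpair.2, p)).isSome = true := by
      rw [hu, take_pre X ((Nat.right_le_pair k j).trans (Nat.le_succ _)), hk]; rfl
    have hex : ∃ m, (List.range (pre X (Nat.pair k j + 1)).length).find? (fun m =>
        (ev m.unpair.1 (encode c) ((pre X (Nat.pair k j + 1)).take m.unpair.2, p)).isSome)
          = some m := by
      rw [← Option.isSome_iff_exists, List.find?_isSome]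
      exact ⟨Nat.pair k j, by simp [pre], hfound⟩
    obtain ⟨m, hm⟩ := hex
    rw [hm, Option.bind_some]
    have hm2 := (List.find?_range_eq_some.1 hm)
    obtain ⟨h1, h2, _⟩ := hm2
    rw [Option.isSome_iff_exists] at h1
    obtain ⟨τ, hτ⟩ := h1
    rw [hτ]
    rw [List.mem_range] at h2
    have hlen : (pre X (Nat.pair k j + 1)).length = Nat.pair k j + 1 := by simp [pre]
    rw [hlen] at h2
    rw [take_pre X ((Nat.unpair_right_le m).trans (by omega))] at hτ
    have h4 := ev_sound hc _ _ _ hτ
    simp only at h4
    -- compare
    rcases le_total j m.unpair.2 with h5 | h5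
    · have := U'.mono _ _ _ _ (pre_prefix X h5) hj
      rw [h4] at this; exact this
    · have := U'.mono _ _ _ _ (pre_prefix X h5) h4
      rw [hj] at this; exact this.symm
  · simp only [List.length_append, List.length_replicate, List.length_cons]
    push_cast
    refine le_of_eq ?_
    ring

/-- The machine for conditional complexity. -/
def VV (q : List Bool × ℕ) : Part (List Bool) :=
  (Part.ofOption (dec q.1)).bind fun ep =>
    ((ofNat Code ep.1).eval (encode (ep.2, q.2))).bind fun v =>
      Part.ofOption (decode v : Option (List Bool))

theorem proof2 : S_CO := by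
  refine ⟨VV, ?_, ?_⟩
  · unfold VV
    refine Partrec.bind ?_ ?_
    · exact (c_dec.comp Computable.fst).ofOption
    · refine Partrec.bind ?_ ?_
      · refine Code.eval_part.comp ((Computable.ofNat Code).comp
          (Computable.fst.comp Computable.snd)) ?_
        exact Computable.encode.comp (Computable.pair (Computable.snd.comp Computable.snd)
          (Computable.snd.comp Computable.fst))
      · exact (Computable.decode.comp Computable.snd).ofOption
  · intro V' hV'
    obtain ⟨c, hc⟩ := Code.exists_code.1 hV'
    refine ⟨encode c + 1, fun σ n => ?_⟩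
    rw [← tsub_le_iff_right]
    unfold CC
    refine le_iInf₂ fun p hpo => ?_
    rw [tsub_le_iff_right]
    refine (iInf₂_le (List.replicate (encode c) true ++ false :: p) ?_).trans ?_
    · unfold VV
      simp only [dec_spec, Part.coe_some, Part.bind_some, ofNat_encode]
      rw [hc]
      simp only [encodek, Part.coe_some, Part.bind_some]
      rw [Part.mem_bind_iff]
      refine ⟨encode σ, (Part.mem_map_iff _).2 ⟨σ, hpo, rfl⟩, ?_⟩
      simp
    · simp only [List.length_append, List.length_replicate, List.length_cons]
      push_cast
      refine le_of_eq ?_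
      ring

end Pool.Agent.Q205.CR.Oo
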