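import Pool.Agent.Q205.CR.Defs

set_option autoImplicit false

/-!
# Project CR: statements of the lemma jobs, with complete proofs in the docstrings

Useful libraries: `Pool.Agent.H166R3.AT.CT` (closure of `Computable` under Boolean operations,
arithmetic, bounded sums, counting, bounded quantifiers, searches), `Nat.Partrec.Code.evaln` of Mathlib
(`evaln_prim`, `evaln_mono`, `evaln_complete`, `evaln_bound`).
-/

namespace Pool.Agent.Q205.CR

/-- JOB CR-1 (an optimal oracle machine exists).

Proof.  Programs: `q = replicate e true ++ false :: p` means: run machine number `e` with program `p`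
(`e` and `p` are computable from `q`; other `q` never print).  Let
`ev k e ρ p : Option (List Bool)` be `Nat.Partrec.Code.evaln k (ofNatCode e) (encode (ρ, p))`, decoded as
an `Option (List Bool)` (so it is `some σ` iff the computation of machine `e` on `(ρ, p)` is found to
have the value `some σ` within `k` steps).  Define `U ρ q` by recursion on the length of `ρ` (reverse
recursion: `U (ρ ++ [b]) q = U ρ q` if that is `some _`, otherwise the value `ev k e ρ' p` for the first
prefix `ρ'` of `ρ ++ [b]` for which it is `some _`, where `k = ρ.length + 1`, or `none`).  Formally it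
may be easier to define `U ρ q` as the value found for the least pair `(k, j)`, `j ≤ k ≤ ρ.length`, in the
order of `k` and then `j`, such that `ev k e (ρ.take j) p` is `some _` (a bounded search over one number
`m < (ρ.length + 1) ^ 2` or over `(List.range (ρ.length + 1)).flatMap ...`).  It is computable, and
monotone since for `ρ <+: ρ'` the lists searched are the same up to `ρ.length` (`ρ'.take j = ρ.take j` for
`j ≤ ρ.length`).  Optimal: let `U'` be an oracle machine; `fun (ρ, p) => U'.M ρ p` is computable, so
it has a code `e`.  If `U'.Out X p σ` then `U'.M (pre X j) p = some σ` for some `j` and `evaln`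
finds this for large `k`, so for `n ≥ k, j`, `U (pre X n) q` is `some _`; and its value is `σ`: it is the
value of `U'.M` at some prefix of `pre X n`, and these are all `none` or `some σ` by `U'.mono`.  So
`CX U X σ ≤ CX U' X σ + (e + 1)`. -/
def S_OO : Prop := ∃ U : OMachine, OOptimal U

/-- JOB CR-2 (an optimal machine for conditional complexity exists).

Proof.  `V (q, n)`: if `q = replicate e true ++ false :: p` then the value of the code `e` at
`encode (p, n)` (decoded), otherwise undefined.  Partial recursive by `Nat.Partrec.Code.eval_part`.  If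
`V'` is partial recursive it has a code `e` (`Nat.Partrec.Code.exists_code`) and
`CC V σ n ≤ CC V' σ n + (e + 1)`. -/
def S_CO : Prop := ∃ V : List Bool × ℕ →. List Bool, COptimal V

/-- JOB CR-3 (the machine is computable and monotone).

Proof.  Computable: `fX`, `fS` are bounded searches, `stp` is a composition, `List.foldl` of a
computable function is computable (`Computable.list_foldl` may be missing; there is
`Primrec.list_foldl`; use `Computable.nat_rec` on the number of bits read).  Monotone: for `ρ <+: ρ'` a
search which succeeds on `List.range ρ.length` gives the same result on `List.range ρ'.length`, and the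
bits below `ρ.length` are the same; so `stp F ρ st b = some q` implies `stp F ρ' st b = some q`, and by
induction on the advice the same holds for the fold. -/
def S_MC : Prop := ∀ F : ℕ → ℕ → ℕ, Appr F → Computable₂ (MA F) ∧
  ∀ ρ ρ' p σ, ρ <+: ρ' → MA F ρ p = some σ → MA F ρ' p = some σ

/-- JOB CR-4 (every infinite subset of `A` or of its complement saves half of the bits).

Proof.  Facts on `W` and `be`: `F l s < 2 ^ l` (induction on `l` with `zero`, `half`), so
`F l s ≤ W F l`, the value `W F l` is attained, `F l s = W F l` iff `be F l ≤ s` (by `mono`);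
`W F (l + 1) / 2 = W F l`, so `F (l + 1) s = W F (l + 1)` implies `F l s = W F l` and `be F` is
nondecreasing; `be F 0 = 0`.
(J) If `x ∈ A` and `be F (2 * i + 1) ≤ x` then `be F (2 * i + 2) ≤ x`: let `be F (2 * j) ≤ x <
be F (2 * j + 1)`; then `i < j`.  If `x ∉ A` and `be F (2 * i) ≤ x` then `be F (2 * i + 1) ≤ x`, by
definition of `A`.
Let `X ⊆ A`; take `e = false`, initial state `(0, 0)`.  If `X ⊆ Aᶜ` take `e = true`; the initial state
is `(1, x)` for the least `x ∈ X`, and `be F 1 ≤ x` by (J) as `be F 0 = 0`.  Let the `i`-th bit of
advice be `W F (l + 1) % 2` where `l = 2 i` (resp. `2 i + 1`).  Invariant: after `i` bits the state is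
`(l, s)` with `be F l ≤ s`, if the prefix of the oracle is long enough.  Step: `F l s = W F l`, so
`v = 2 * F l s + b = W F (l + 1)`; the first `t ≥ s` with `F (l + 1) t ≥ v` exists, and
`F (l + 1) t = W F (l + 1)`, so `be F (l + 1) ≤ t`; the first `x ∈ X`, `x ≥ t` exists as `X` is
infinite, and `be F (l + 2) ≤ x` by (J).  After `r` bits `be F (2 * r) ≤ s` (in the second case
`be F (2 * r) ≤ be F (2 * r + 1) ≤ s`), so the output is `sg (2 * r) (W F (2 * r))`. -/
def S_UP : Prop := ∀ F : ℕ → ℕ → ℕ, Appr F → ∀ X ∈ RT12 (AA F), ∀ r : ℕ,
  ∃ p : List Bool, p.length = r + 1 ∧ ∃ n, MA F (pre X n) p = some (sg (2 * r) (W F (2 * r)))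

/-- `G` is a computable approximation in stages of `p ↦ V (p, 0)`, and from a stage on at which the
first `l` bits of the number approximated by `F` are final all values of programs `p` with
`|p| + |p| / 2 + 2 ≤ l` have appeared. -/
structure Good (V : List Bool × ℕ →. List Bool) (F : ℕ → ℕ → ℕ)
    (G : ℕ → List Bool → Option (List Bool)) : Prop where
  appr : Appr F
  comp : Computable₂ G
  mono : ∀ s t p σ, s ≤ t → G s p = some σ → G t p = some σ
  lim : ∀ p σ, σ ∈ V (p, 0) ↔ ∃ s, G s p = some σ
  sett : ∀ l s p, F l s = W F l → p.length + p.length / 2 + 2 ≤ l → (V (p, 0)).Dom →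
    ∃ σ, G s p = some σ

/-- JOB CR-5 (a halting probability).

Proof.  Let `c` be a code of `p ↦ V (p, 0)` (on encodings) and
`G s p = if encode p < s then decode (evaln s c (encode p)) else none` (as `Option (List Bool)`).  Let
`w p = 2 ^ (-(|p| + |p| / 2 + 2))` (a rational number) and `a s = ∑ w p` over the `p` with
`encode p < s` and `G s p ≠ none`; `a` is nondecreasing.  `a s < 1`: there are `2 ^ k` strings of length
`k`, and `∑_{k < K} 2 ^ k * 2 ^ (-(k + k / 2 + 2)) = ∑_{k < K} 2 ^ (-(k / 2 + 2)) < 1`.  Let
`F l s = ⌊2 ^ l * a s⌋₊`; then `F 0 s = 0`, `F (l + 1) s / 2 = F l s` and `F` is monotone.  Computable: with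
a common denominator `2 ^ m`, `m` larger than all `|p| + |p| / 2 + 2` for `encode p < s` (for instance
`m = ∑_{j < s} (|decode j| + |decode j| / 2 + 2)`), `F l s = (2 ^ l * ∑ 2 ^ (m - (|p| + |p| / 2 + 2))) / 2 ^ m`.
`sett`: if `F l s = W F l` and `V (p, 0)` is defined but `G s p = none`, then `G t p ≠ none` for some
`t > s`, and `a t ≥ a s + w p ≥ a s + 2 ^ (-l)`, so `F l t ≥ F l s + 1 > W F l`, which contradicts
`F l t ≤ W F l` (the values `F l t` are bounded by `2 ^ l`). -/
def S_AP : Prop := ∀ V : List Bool × ℕ →. List Bool, Partrec V → ∃ F G, Good V F G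

/-- JOB CR-6 (lower bound).

Proof.  Machine `V' (q, n)` (`n` is not used): compute `σ ∈ V (q, 0)`; decode it as `sg l w`
(`Nat.unpair σ.length`); find `s` with `w ≤ F l s`; let `m` be one more than the maximum of the lengths
of all `τ` with `G s p = some τ`, `|p| + |p| / 2 + 2 ≤ l` (finitely many strings `p`, enumerated for
instance as `(List.range (2 ^ (l + 1))).filterMap decode`-like list or by recursion on the length; any
computable finite list containing all strings of length `≤ l` will do), and print `replicate m true`.
It is partial recursive; let `d` be the constant of optimality: `CC V τ n ≤ CC V' τ n + d`.  Let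
`V (q, 0) = sg l (W F l)`.  Then the stage `s` found has `F l s ≥ W F l`, so `F l s = W F l`, and by
`sett` and `lim` the string `τ = replicate m true` is not in `V (p, 0)` for any `p` with
`|p| + |p| / 2 + 2 ≤ l`.  So every `p` with `τ ∈ V (p, 0)` has `|p| + |p| / 2 + 2 > l`, hence
`2 l ≤ 3 |p| + 4`, that is `2 l ≤ 3 CC V τ 0 + 4`.  But `CC V τ 0 ≤ |q| + d`.  So
`2 l ≤ 3 |q| + 3 d + 4` for all `q` with `V (q, 0) = sg l (W F l)`. -/
def S_LB : Prop := ∀ (V : List Bool × ℕ →. List Bool), COptimal V → ∀ F G, Good V F G →
  ∃ c : ℕ, ∀ l : ℕ, (2 * l : ℕ∞) ≤ 3 * CC V (sg l (W F l)) 0 + c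

end Pool.Agent.Q205.CR
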