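import Pool.Agent.Q205.CR.Stm
import Pool.Agent.H166R3.AT.CT

set_option autoImplicit false

/-!
# Project CR: closure of computable functions under folds and bounded searches
-/

namespace Pool.Agent.Q205.CR.Tl

open Pool.Agent.H166R3.AT

variable {α β γ σ : Type*} [Primcodable α] [Primcodable β] [Primcodable γ] [Primcodable σ]

/-- Bounded search. -/
theorem c_find? {n : α → ℕ} {f : α → ℕ → Bool} (hn : Computable n) (hf : Computable₂ f) :
    Computable (fun a => (List.range (n a)).find? (f a)) := by
  have h := Computable.nat_rec (f := n) (g := fun _ => (none : Option ℕ))
    (h := fun a q => Option.casesOn q.2 (if f a q.1 = true then some q.1 else none) some)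
    hn (Computable.const none) (by
      refine Computable.option_casesOn (Computable.snd.comp Computable.snd) ?_ ?_
      · refine c_ite ?_ ?_ (Computable.const none)
        · exact hf.comp Computable.fst (Computable.fst.comp Computable.snd)
        · exact Computable.option_some.comp (Computable.fst.comp Computable.snd)
      · exact Computable.option_some.comp Computable.snd)
  refine h.of_eq (fun a => ?_)
  induction n a with
  | zero => rfl
  | succ m ih =>
    rw [List.range_succ, List.find?_append]
    simp only at ih ⊢
    rw [ih]
    generalize List.find? (f a) (List.range m) = z
    cases z with
    | none =>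
      simp only [Option.none_or, List.find?_cons, List.find?_nil]
      cases f a m <;> rfl
    | some z => rfl

/-- Folds over a list. -/
theorem c_foldl {L : α → List β} {i : α → σ} {g : α → σ × β → σ} (hL : Computable L)
    (hi : Computable i) (hg : Computable₂ g) :
    Computable (fun a => (L a).foldl (fun s b => g a (s, b)) (i a)) := by
  have h := Computable.nat_rec (f := fun a => (L a).length) (g := i)
    (h := fun a q => Option.casesOn ((L a)[q.1]?) q.2 (fun b => g a (q.2, b)))
    (Computable.list_length.comp hL) hi (by
      refine Computable.option_casesOn ?_ (Computable.snd.comp Computable.snd) ?_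
      · exact Computable.list_getElem?.comp (hL.comp Computable.fst)
          (Computable.fst.comp Computable.snd)
      · refine hg.comp (Computable.fst.comp Computable.fst) ?_
        exact Computable.pair (Computable.snd.comp (Computable.snd.comp Computable.fst))
          Computable.snd)
  refine h.of_eq (fun a => ?_)
  have key : ∀ m, (Nat.rec (i a) (fun y IH => Option.casesOn ((L a)[y]?) IH
      (fun b => g a (IH, b))) m : σ) = ((L a).take m).foldl (fun s b => g a (s, b)) (i a) := by
    intro m
    induction m with
    | zero => rfl
    | succ m ih =>
      rw [List.take_add_one, List.foldl_append, ← ih]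
      simp only
      cases (L a)[m]? <;> rfl
  rw [key, List.take_length]

/-- `f <$> o` -/
theorem c_bind {f : α → Option β} {g : α → β → Option σ} (hf : Computable f)
    (hg : Computable₂ g) : Computable (fun a => (f a).bind (g a)) :=
  Computable.option_bind hf hg

theorem c_map {f : α → Option β} {g : α → β → σ} (hf : Computable f)
    (hg : Computable₂ g) : Computable (fun a => (f a).map (g a)) :=
  Computable.option_map hf hg

theorem c_getD {L : α → List β} {i : α → ℕ} {d : β} (hL : Computable L) (hi : Computable i) :
    Computable (fun a => (L a).getD (i a) d) := by
  have h := Computable.option_getD (Computable.list_getElem?.comp hL hi) (Computable.const d)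
  exact h.of_eq (fun a => by simp [List.getD_eq_getElem?_getD])

/-- Case distinction on a list, with values in an option type. -/
theorem c_listCases {L : α → List β} {g : α → β × List β → Option σ} (hL : Computable L)
    (hg : Computable₂ g) :
    Computable (fun a => (List.casesOn (L a) (none : Option σ) (fun b l => g a (b, l)) :
      Option σ)) := by
  have h : Computable (fun a => ((L a).head?).bind (fun b => g a (b, (L a).tail))) := by
    refine Computable.option_bind (Primrec.list_head?.to_comp.comp hL) ?_
    refine hg.comp Computable.fst (Computable.pair Computable.snd ?_)
    exact Primrec.list_tail.to_comp.comp (hL.comp Computable.fst)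
  refine h.of_eq (fun a => ?_)
  cases L a <;> rfl

/-- `List.replicate`. -/
theorem c_replicate {n : α → ℕ} {b : β} (hn : Computable n) :
    Computable (fun a => List.replicate (n a) b) := by
  have h := Computable.nat_rec (f := n) (g := fun _ => ([] : List β))
    (h := fun _ q => b :: q.2) hn (Computable.const []) (by
      exact Computable.list_cons.comp (Computable.const b) (Computable.snd.comp Computable.snd))
  refine h.of_eq (fun a => ?_)
  induction n a with
  | zero => rfl
  | succ m ih => rw [List.replicate_succ, ← ih]

end Pool.Agent.Q205.CR.Tl
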